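import Pool.Agent.W952.LP.Stm

/-! LP-FORTH: from the pattern to coded open sets -/

set_option autoImplicit false

open Metric Set Filter Topology

namespace Pool.Agent.W174.LP

open Pool.Agent.W952.LP

/-- rational numbers between two reals -/
theorem exists_code (a b : ℝ) (ha : 0 ≤ a) (hab : a < b) :
    ∃ u : ℕ, 0 < u.unpair.1 ∧ a < ratVal u ∧ ratVal u < b := by
  obtain ⟨q, hq1, hq2⟩ := exists_rat_btwn hab
  have hq0 : 0 < q := by
    have : (0 : ℝ) < q := lt_of_le_of_lt ha hq1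
    exact_mod_cast this
  have hnum : 0 < q.num := Rat.num_pos.mpr hq0
  have hv : ratVal (Nat.pair q.num.toNat (q.den - 1)) = (q : ℝ) := by
    unfold ratVal
    simp only [Nat.unpair_pair]
    have h1 : ((q.num.toNat : ℕ) : ℝ) = (q.num : ℝ) := by
      have : ((q.num.toNat : ℕ) : ℤ) = q.num := Int.toNat_of_nonneg hnum.le
      exact_mod_cast congrArg (fun z : ℤ => (z : ℝ)) this
    have h2 : ((q.den - 1 : ℕ) : ℝ) + 1 = (q.den : ℝ) := by
      have : 1 ≤ q.den := q.den_pos
      rw [Nat.cast_sub this]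
      ring
    rw [h1, h2]
    have h3 : (q : ℝ) = (q.num : ℝ) / (q.den : ℝ) := by
      exact_mod_cast (Rat.cast_def q : ((q : ℚ) : ℝ) = _)
    exact h3.symm
  refine ⟨Nat.pair q.num.toNat (q.den - 1), ?_, ?_, ?_⟩
  · simp only [Nat.unpair_pair]
    omega
  · rw [hv]; exact hq1
  · rw [hv]; exact hq2

section
variable {Y : Type} [MetricSpace Y] (y : ℕ → Y)

/-- the open set coded by a list -/
def Om (L : List (ℕ × ℕ)) : Set Y := {x | ∃ p ∈ L, dist x (y p.1) < ratVal p.2}

theorem om_open (L : List (ℕ × ℕ)) : IsOpen (Om y L) := by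
  have h : Om y L = ⋃ p ∈ L, ball (y p.1) (ratVal p.2) := by
    ext x
    simp [Om, mem_ball]
  rw [h]
  exact isOpen_iUnion fun p => isOpen_iUnion fun _ => isOpen_ball

theorem inO_iff (k : ℕ) (L : List (ℕ × ℕ)) :
    InO (fun q => dist (y q.1) (y q.2.1) < ratVal q.2.2) k L ↔ y k ∈ Om y L := Iff.rfl

theorem exists_list (hy : DenseRange y) (C O : Set Y) (hC : IsCompact C) (hO : IsOpen O)
    (hCO : C ⊆ O) : ∃ L : List (ℕ × ℕ), C ⊆ Om y L ∧ Om y L ⊆ O := by
  have h1 : ∀ x ∈ C, ∃ i u : ℕ, dist x (y i) < ratVal u ∧ ball (y i) (ratVal u) ⊆ O := by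
    intro x hx
    obtain ⟨r, hr, hball⟩ := Metric.isOpen_iff.mp hO x (hCO hx)
    obtain ⟨i, hi⟩ := hy.exists_dist_lt x (show 0 < r / 4 by linarith)
    obtain ⟨u, _, hu1, hu2⟩ := exists_code (r / 4) (r / 2) (by linarith) (by linarith)
    refine ⟨i, u, hi.trans hu1, ?_⟩
    intro z hz
    apply hball
    rw [mem_ball] at hz ⊢
    have h2 : dist z x ≤ dist z (y i) + dist (y i) x := dist_triangle _ _ _
    rw [dist_comm (y i) x] at h2
    linarith
  choose! i u hiu hsub using h1
  obtain ⟨t, ht, hcov⟩ := hC.elim_nhds_subcover (fun x => ball (y (i x)) (ratVal (u x)))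
    (fun x hx => isOpen_ball.mem_nhds (by rw [mem_ball]; exact hiu x hx))
  refine ⟨t.toList.map fun x => (i x, u x), ?_, ?_⟩
  · intro x hx
    obtain ⟨c, hc⟩ := mem_iUnion.mp (hcov hx)
    obtain ⟨hc1, hc2⟩ := mem_iUnion.mp hc
    refine ⟨(i c, u c), ?_, ?_⟩
    · rw [List.mem_map]
      exact ⟨c, by rw [Finset.mem_toList]; exact hc1, rfl⟩
    · exact hc2
  · rintro x ⟨p, hp, hxp⟩
    rw [List.mem_map] at hp
    obtain ⟨c, hc, rfl⟩ := hp
    rw [Finset.mem_toList] at hc
    exact hsub c (ht c hc) hxp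

/-- chains of dense points -/
theorem reach (hy : DenseRange y) (U : Set Y) (hU : IsOpen U) (hc : IsPreconnected U) (ε : ℝ)
    (hε : 0 < ε) (k l : ℕ) (hk : y k ∈ U) (hl : y l ∈ U) :
    Relation.ReflTransGen (fun a b => y a ∈ U ∧ y b ∈ U ∧ dist (y a) (y b) < ε) k l := by
  by_contra hcon
  obtain ⟨R, hR⟩ : ∃ R : ℕ → Prop, R = fun m => Relation.ReflTransGen
    (fun a b => y a ∈ U ∧ y b ∈ U ∧ dist (y a) (y b) < ε) k m := ⟨_, rfl⟩
  have hRk : R k := by rw [hR]
  have hRl : ¬ R l := by rw [hR]; exact hcon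
  have hstep : ∀ a b, R a → y a ∈ U → y b ∈ U → dist (y a) (y b) < ε → R b := by
    intro a b ha h1 h2 h3
    rw [hR] at ha ⊢
    exact ha.tail ⟨h1, h2, h3⟩
  have hopen : ∀ Q : ℕ → Prop, IsOpen {x : Y | ∃ m, Q m ∧ y m ∈ U ∧ dist x (y m) < ε / 2} := by
    intro Q
    have h : {x : Y | ∃ m, Q m ∧ y m ∈ U ∧ dist x (y m) < ε / 2} =
        ⋃ m, ⋃ (_ : Q m ∧ y m ∈ U), ball (y m) (ε / 2) := by
      ext x
      simp [mem_ball, and_assoc]
    rw [h]
    exact isOpen_iUnion fun p => isOpen_iUnion fun _ => isOpen_ball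
  have h1 := hc _ _ (hopen R) (hopen (fun m => ¬ R m))
    (by
      intro x hx
      obtain ⟨m, hm⟩ := hy.exists_mem_open (hU.inter isOpen_ball)
        ⟨x, hx, mem_ball_self (show 0 < ε / 2 by linarith)⟩
      have hm2 : dist x (y m) < ε / 2 := by
        have := hm.2
        rw [mem_ball, dist_comm] at this
        exact this
      by_cases h : R m
      · exact Or.inl ⟨m, h, hm.1, hm2⟩
      · exact Or.inr ⟨m, h, hm.1, hm2⟩)
    ⟨y k, hk, k, hRk, hk, by rw [dist_self]; linarith⟩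
    ⟨y l, hl, l, hRl, hl, by rw [dist_self]; linarith⟩
  obtain ⟨x, _, ⟨m, hm1, hm2, hm3⟩, ⟨m', hm1', hm2', hm3'⟩⟩ := h1
  apply hm1'
  apply hstep m m' hm1 hm2 hm2'
  calc dist (y m) (y m') ≤ dist (y m) x + dist x (y m') := dist_triangle _ _ _
    _ < ε / 2 + ε / 2 := by rw [dist_comm (y m) x]; exact add_lt_add hm3 hm3'
    _ = ε := by ring

theorem chain_list (U : Set Y) (ε : ℝ) (k l : ℕ) (hl : y l ∈ U)
    (h : Relation.ReflTransGen (fun a b => y a ∈ U ∧ y b ∈ U ∧ dist (y a) (y b) < ε) k l) :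
    ∃ c : List ℕ, 0 < c.length ∧ c.getD 0 0 = k ∧ c.getD (c.length - 1) 0 = l ∧
      (∀ j < c.length - 1, dist (y (c.getD j 0)) (y (c.getD (j + 1) 0)) < ε) ∧
      ∀ j < c.length, y (c.getD j 0) ∈ U := by
  induction h using Relation.ReflTransGen.head_induction_on with
  | refl =>
    refine ⟨[l], by simp, by simp, by simp, ?_, ?_⟩
    · intro j hj
      simp at hj
    · intro j hj
      have : j = 0 := by simp at hj; exact hj
      rw [this]
      simpa using hl
  | @head a b h' _ ih =>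
    obtain ⟨c, h1, h2, h3, h4, h5⟩ := ih
    refine ⟨a :: c, by simp, by simp, ?_, ?_, ?_⟩
    · have e : (a :: c).length - 1 = (c.length - 1) + 1 := by
        simp only [List.length_cons]; omega
      rw [e, List.getD_cons_succ]
      exact h3
    · intro j hj
      simp only [List.length_cons] at hj
      rcases j with _ | j
      · rw [List.getD_cons_zero, List.getD_cons_succ, h2]
        exact h'.2.2
      · rw [List.getD_cons_succ, List.getD_cons_succ]
        exact h4 j (by omega)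
    · intro j hj
      simp only [List.length_cons] at hj
      rcases j with _ | j
      · rw [List.getD_cons_zero]
        exact h'.1
      · rw [List.getD_cons_succ]
        exact h5 j (by omega)

/-- uniform separation -/
theorem exists_sep [CompactSpace Y] (N : ℕ) (A : ℕ → Set Y) (hA : ∀ t < N, IsClosed (A t))
    (D : ℕ → ℕ → Prop) (hD : ∀ s < N, ∀ t < N, D s t → Disjoint (A s) (A t)) :
    ∃ δ : ℝ, 0 < δ ∧ ∀ s < N, ∀ t < N, D s t →
      Disjoint (thickening δ (A s)) (thickening δ (A t)) := by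
  have h1 : ∀ s < N, ∀ t < N, ∀ᶠ δ in 𝓝[>] (0 : ℝ), D s t →
      Disjoint (thickening δ (A s)) (thickening δ (A t)) := by
    intro s hs t ht
    by_cases h : D s t
    · obtain ⟨δ, hδ, hdis⟩ := (hD s hs t ht h).exists_thickenings (hA s hs).isCompact (hA t ht)
      filter_upwards [Ioo_mem_nhdsGT hδ] with δ' hδ' _
      exact hdis.mono (thickening_mono hδ'.2.le _) (thickening_mono hδ'.2.le _)
    · exact Eventually.of_forall fun δ h' => absurd h' h
  have h2 : ∀ᶠ δ in 𝓝[>] (0 : ℝ), ∀ s ∈ Finset.range N, ∀ t ∈ Finset.range N, D s t →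
      Disjoint (thickening δ (A s)) (thickening δ (A t)) := by
    rw [Filter.eventually_all_finset]
    intro s hs
    rw [Filter.eventually_all_finset]
    intro t ht
    exact h1 s (Finset.mem_range.mp hs) t (Finset.mem_range.mp ht)
  obtain ⟨δ, hδ, hδ0⟩ := (h2.and self_mem_nhdsWithin).exists
  exact ⟨δ, hδ0, fun s hs t ht hst =>
    hδ s (Finset.mem_range.mpr hs) t (Finset.mem_range.mpr ht) hst⟩

end

theorem forth : S_forth := by
  intro Y _ _ y hy n K U hr
  obtain ⟨N, hN⟩ : ∃ N, N = 3 * n + 2 := ⟨_, rfl⟩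
  -- separation
  obtain ⟨δ, hδ, hsep⟩ := exists_sep N (fun t => closure (U t)) (fun t _ => isClosed_closure)
    (fun s t => s < t ∧ ¬ Adj s t) (fun s hs t ht hst => hr.nadj s t hst.1 (by omega) hst.2)
  -- the lists
  have hS : ∀ t, ∃ L : List (ℕ × ℕ), t < N → K t ⊆ Om y L ∧ Om y L ⊆ U t := by
    intro t
    by_cases ht : t < N
    · obtain ⟨L, hL⟩ := exists_list y hy (K t) (U t) (hr.closed t (by omega)).isCompact
        (hr.opn t (by omega)) (hr.sub t (by omega))
      exact ⟨L, fun _ => hL⟩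
    · exact ⟨[], fun h => absurd h ht⟩
  have hL : ∀ t, ∃ L : List (ℕ × ℕ), closure (U t) ⊆ Om y L ∧
      Om y L ⊆ thickening (δ / 2) (closure (U t)) := by
    intro t
    exact exists_list y hy (closure (U t)) _ isClosed_closure.isCompact isOpen_thickening
      (self_subset_thickening (by linarith) _)
  choose S hS using hS
  choose L hL using hL
  obtain ⟨u, hu0, hu1, hu2⟩ := exists_code 0 (δ / 2) le_rfl (by linarith)
  obtain ⟨P, hP⟩ : ∃ P : List (List (ℕ × ℕ) × List (ℕ × ℕ)),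
      P = (List.range N).map fun t => (S t, L t) := ⟨_, rfl⟩
  have hoS : ∀ t < N, oS P t = S t := by
    intro t ht
    unfold oS
    rw [hP, List.getD_eq_getElem _ _ (by simpa using ht)]
    simp
  have hoL : ∀ t < N, oL P t = L t := by
    intro t ht
    unfold oL
    rw [hP, List.getD_eq_getElem _ _ (by simpa using ht)]
    simp
  refine ⟨P, u, ⟨hu0, ?_, ?_, ?_, ?_, ?_⟩⟩
  · intro k
    obtain ⟨t, ht, hk⟩ := hr.cover (y k)
    refine ⟨t, ht, ?_⟩
    rw [inO_iff, hoS t (by omega)]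
    exact (hS t (by omega)).1 hk
  · intro t ht
    obtain ⟨x, hx⟩ := hr.nonempty t ht
    obtain ⟨k, hk⟩ := hy.exists_mem_open (om_open y (S t)) ⟨x, (hS t (by omega)).1 hx⟩
    refine ⟨k, ?_⟩
    rw [inO_iff, hoS t (by omega)]
    exact hk
  · intro t ht s hst hadj
    obtain ⟨x, hx1, hx2⟩ := hr.adj s t hst ht hadj
    obtain ⟨k, hk⟩ := hy.exists_mem_open ((om_open y (S s)).inter (om_open y (S t)))
      ⟨x, (hS s (by omega)).1 hx1, (hS t (by omega)).1 hx2⟩
    refine ⟨k, ?_, ?_⟩
    · rw [inO_iff, hoS s (by omega)]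
      exact hk.1
    · rw [inO_iff, hoS t (by omega)]
      exact hk.2
  · intro t ht s hst hadj k l hk hl hkl
    rw [inO_iff, hoL s (by omega)] at hk
    rw [inO_iff, hoL t (by omega)] at hl
    have h1 := (hL s).2 hk
    have h2 := (hL t).2 hl
    have h3 : dist (y k) (y l) < ratVal u := hkl
    have h4 := hsep s (by omega) t (by omega) ⟨hst, hadj⟩
    rw [mem_thickening_iff] at h1
    obtain ⟨z, hz, hz1⟩ := h1
    have h5 : y l ∈ thickening δ (closure (U s)) := by
      rw [mem_thickening_iff]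
      refine ⟨z, hz, ?_⟩
      have h6 : dist (y l) z ≤ dist (y l) (y k) + dist (y k) z := dist_triangle _ _ _
      rw [dist_comm (y l) (y k)] at h6
      linarith
    have h7 : y l ∈ thickening δ (closure (U t)) :=
      thickening_mono (by linarith) _ h2
    exact Set.disjoint_left.mp h4 h5 h7
  · intro t ht k l e hk hl he
    rw [inO_iff, hoS t (by omega)] at hk hl
    have hk' := (hS t (by omega)).2 hk
    have hl' := (hS t (by omega)).2 hl
    have hε : 0 < ratVal e := by
      unfold ratVal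
      have : (0 : ℝ) < (e.unpair.1 : ℝ) := by exact_mod_cast he
      positivity
    obtain ⟨c, h1, h2, h3, h4, h5⟩ := chain_list y (U t) (ratVal e) k l hl'
      (reach y hy (U t) (hr.opn t ht) (hr.conn t ht) (ratVal e) hε k l hk' hl')
    refine ⟨c, h1, h2, h3, h4, ?_⟩
    intro j hj
    rw [inO_iff, hoL t (by omega)]
    exact (hL t).1 (subset_closure (h5 j hj))

end Pool.Agent.W174.LP
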