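import Pool.Agent.W297.LP.Stm

/-!
Project LP (helper297): the parts TUR and MANY.
-/

set_option autoImplicit false

open Finset

namespace Pool.Agent.W174.LP.Tur

open Pool.Agent.W297.LP

theorem ee_le {V : Type} [Fintype V] (W : V → V → ℝ) (hW : Ker W) (D : Finset V) :
    ee W D D ≤ (ms D) ^ 2 := by
  unfold ee ms
  rw [div_pow]
  apply div_le_div_of_nonneg_right _ (by positivity)
  calc ∑ x ∈ D, ∑ y ∈ D, W x y ≤ ∑ x ∈ D, ∑ y ∈ D, (1 : ℝ) := by
        apply Finset.sum_le_sum; intro x _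
        apply Finset.sum_le_sum; intro y _
        rcases hW.zo x y with h | h <;> rw [h] <;> norm_num
    _ = (D.card : ℝ) ^ 2 := by simp; ring

theorem ms_nonneg {V : Type} [Fintype V] (D : Finset V) : 0 ≤ ms D := by
  unfold ms; positivity

theorem ms_le {V : Type} [Fintype V] (D : Finset V) : ms D ≤ 1 := by
  unfold ms
  apply div_le_one_of_le₀ _ (by positivity)
  exact_mod_cast Finset.card_le_univ D

theorem prod_pos' (s : ℕ) (r : ℝ) (hr : 0 < r) (hs : (s : ℝ) - 1 < r) :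
    0 < ∏ i ∈ range s, (1 - (i : ℝ) / r) := by
  apply Finset.prod_pos
  intro i hi
  rw [Finset.mem_range] at hi
  have h1 : (i : ℝ) + 1 ≤ s := by exact_mod_cast hi
  have h2 : (i : ℝ) / r < 1 := by
    rw [div_lt_one hr]; linarith
  linarith

theorem tur : SDens → STur := by
  intro hD k hk h hh
  have hk' : (4 : ℝ) ≤ k := by exact_mod_cast hk
  obtain ⟨t, ht⟩ : ∃ t : ℝ, t = mu k := ⟨_, rfl⟩
  have ht' : t = 1 / ((k : ℝ) - 1) := by rw [ht]; rfl
  have htpos : 0 < t := by rw [ht']; apply one_div_pos.2; linarith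
  have ht3 : t ≤ 1 / 3 := by
    rw [ht']; apply one_div_le_one_div_of_le <;> linarith
  have htk : t * ((k : ℝ) - 1) = 1 := by
    rw [ht']; apply one_div_mul_cancel; linarith
  obtain ⟨g, hg⟩ : ∃ g : ℝ, g = min h (t / 2) := ⟨_, rfl⟩
  have hg0 : 0 < g := by rw [hg]; exact lt_min hh (by linarith)
  have hgh : g ≤ h := by rw [hg]; exact min_le_left _ _
  have hgt : g ≤ t / 2 := by rw [hg]; exact min_le_right _ _
  have hg1 : g ≤ 1 := by linarith
  obtain ⟨r, hr⟩ : ∃ r : ℝ, r = 1 / (t - g) := ⟨_, rfl⟩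
  have hr0 : 0 < r := by rw [hr]; apply one_div_pos.2; linarith
  have hrr : 1 / r = t - g := by rw [hr, one_div_one_div]
  have hrk : (k : ℝ) - 1 < r := by
    have h1 : (k : ℝ) - 1 = 1 / t := by
      field_simp; linarith
    rw [h1, hr]
    apply one_div_lt_one_div_of_lt <;> linarith
  have hP := prod_pos' k r hr0 hrk
  obtain ⟨P, hPP⟩ : ∃ P : ℝ, P = ∏ i ∈ range k, (1 - (i : ℝ) / r) := ⟨_, rfl⟩
  rw [← hPP] at hP
  refine ⟨(1 / 2) * g ^ k * P, by positivity, ?_⟩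
  intro V _ W hW D hcl
  by_contra hcon
  push Not at hcon
  rw [← ht] at hcon
  have hm0 := ms_nonneg D
  have hm1 := ms_le D
  have hem := ee_le W hW D
  have hm2 : (ms D) ^ 2 ≤ 1 := by nlinarith
  have hm3 : (ms D) ^ 2 ≤ ms D := by nlinarith
  have h0 : 0 ≤ (1 - t) * (ms D) ^ 2 := by
    apply mul_nonneg (by linarith) (by positivity)
  have hn : 0 < (Fintype.card V : ℝ) := by
    rcases Nat.eq_zero_or_pos (Fintype.card V) with h1 | h1
    · exfalso
      have : ee W D D = 0 := by unfold ee; rw [h1]; simp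
      rw [this] at hcon
      linarith
    · exact_mod_cast h1
  have hDn : g * (Fintype.card V : ℝ) ≤ (D.card : ℝ) := by
    have h1 : g ≤ ms D := by linarith
    have h2 : ms D * (Fintype.card V : ℝ) = D.card := by
      unfold ms; field_simp
    rw [← h2]
    exact mul_le_mul_of_nonneg_right h1 hn.le
  have hsum : (1 - 1 / r) * (D.card : ℝ) ^ 2 ≤ ∑ x ∈ D, ∑ y ∈ D, W x y := by
    have h1 : (1 - t + g) * (ms D) ^ 2 ≤ ee W D D := by nlinarith
    have h2 : ee W D D * (Fintype.card V : ℝ) ^ 2 = ∑ x ∈ D, ∑ y ∈ D, W x y := by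
      unfold ee; field_simp
    have h3 : (ms D) ^ 2 * (Fintype.card V : ℝ) ^ 2 = (D.card : ℝ) ^ 2 := by
      unfold ms; field_simp
    rw [← h2, ← h3, hrr]
    have h4 := mul_le_mul_of_nonneg_right h1 (by positivity : 0 ≤ (Fintype.card V : ℝ) ^ 2)
    calc _ = (1 - t + g) * ms D ^ 2 * (Fintype.card V : ℝ) ^ 2 := by ring
      _ ≤ _ := h4
  have key := hD V W hW D r hr0 hsum k hrk.le
  rw [← hPP] at key
  have h5 : (g * (Fintype.card V : ℝ)) ^ k ≤ (D.card : ℝ) ^ k :=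
    pow_le_pow_left₀ (by positivity) hDn k
  have h6 : P * (g * (Fintype.card V : ℝ)) ^ k ≤ P * (D.card : ℝ) ^ k :=
    mul_le_mul_of_nonneg_left h5 hP.le
  have h7 : 0 < P * (g * (Fintype.card V : ℝ)) ^ k := by positivity
  have h8 : (1 / 2) * g ^ k * P * (Fintype.card V : ℝ) ^ k =
      (1 / 2) * (P * (g * (Fintype.card V : ℝ)) ^ k) := by rw [mul_pow]; ring
  rw [h8] at hcl
  linarith

theorem many : SDens → SManyK := by
  intro hD k hk
  have hk' : (4 : ℝ) ≤ k := by exact_mod_cast hk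
  obtain ⟨t, ht⟩ : ∃ t : ℝ, t = mu k := ⟨_, rfl⟩
  have ht' : t = 1 / ((k : ℝ) - 1) := by rw [ht]; rfl
  have htpos : 0 < t := by rw [ht']; apply one_div_pos.2; linarith
  have ht3 : t ≤ 1 / 3 := by
    rw [ht']; apply one_div_le_one_div_of_le <;> linarith
  have htk : t * ((k : ℝ) - 1) = 1 := by
    rw [ht']; apply one_div_mul_cancel; linarith
  obtain ⟨r, hr⟩ : ∃ r : ℝ, r = 1 / (t + t ^ 2) := ⟨_, rfl⟩
  have hr0 : 0 < r := by rw [hr]; positivity
  have hrr : 1 / r = t + t ^ 2 := by rw [hr, one_div_one_div]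
  have hck : ((k - 1 : ℕ) : ℝ) = (k : ℝ) - 1 := by
    rw [Nat.cast_sub (by omega)]; norm_num
  have hrk : ((k - 1 : ℕ) : ℝ) - 1 < r := by
    rw [hck, hr, lt_div_iff₀ (by positivity)]
    have : (k : ℝ) = 1 / t + 1 := by field_simp; linarith
    have h2 : ((k : ℝ) - 1 - 1) * (t + t ^ 2) = (t * ((k : ℝ) - 1) - t) * (1 + t) := by ring
    rw [h2, htk]
    nlinarith
  have hP := prod_pos' (k - 1) r hr0 hrk
  obtain ⟨P, hPP⟩ : ∃ P : ℝ, P = ∏ i ∈ range (k - 1), (1 - (i : ℝ) / r) := ⟨_, rfl⟩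
  rw [← hPP] at hP
  refine ⟨(1 / 2) ^ (k - 1) * P, t ^ 2, by positivity, by positivity, ?_⟩
  intro V _ W hW D hee
  rw [← ht] at hee
  have hm0 := ms_nonneg D
  have hm1 := ms_le D
  have hem := ee_le W hW D
  have ht2 : t ^ 2 ≤ 1 / 9 := by nlinarith
  have hn : 0 < (Fintype.card V : ℝ) := by
    rcases Nat.eq_zero_or_pos (Fintype.card V) with h1 | h1
    · exfalso
      have : ee W D D = 0 := by unfold ee; rw [h1]; simp
      rw [this] at hee
      linarith
    · exact_mod_cast h1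
  have hm2 : 1 / 2 ≤ ms D := by nlinarith
  have hDn : (1 / 2) * (Fintype.card V : ℝ) ≤ (D.card : ℝ) := by
    have h2 : ms D * (Fintype.card V : ℝ) = D.card := by
      unfold ms; field_simp
    rw [← h2]
    exact mul_le_mul_of_nonneg_right hm2 hn.le
  have hDn' : (D.card : ℝ) ≤ (Fintype.card V : ℝ) := by exact_mod_cast Finset.card_le_univ D
  have hsum : (1 - 1 / r) * (D.card : ℝ) ^ 2 ≤ ∑ x ∈ D, ∑ y ∈ D, W x y := by
    have h2 : ee W D D * (Fintype.card V : ℝ) ^ 2 = ∑ x ∈ D, ∑ y ∈ D, W x y := by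
      unfold ee; field_simp
    rw [← h2, hrr]
    have h3 : (D.card : ℝ) ^ 2 ≤ (Fintype.card V : ℝ) ^ 2 := pow_le_pow_left₀ (by positivity) hDn' 2
    have h4 : (1 - (t + t ^ 2)) * (D.card : ℝ) ^ 2 ≤ (1 - (t + t ^ 2)) * (Fintype.card V : ℝ) ^ 2 :=
      mul_le_mul_of_nonneg_left h3 (by linarith)
    have h5 := mul_le_mul_of_nonneg_right hee (by positivity : 0 ≤ (Fintype.card V : ℝ) ^ 2)
    linarith
  have key := hD V W hW D r hr0 hsum (k - 1) hrk.le
  rw [← hPP] at key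
  have h5 : ((1 / 2) * (Fintype.card V : ℝ)) ^ (k - 1) ≤ (D.card : ℝ) ^ (k - 1) :=
    pow_le_pow_left₀ (by positivity) hDn _
  have h6 : P * ((1 / 2) * (Fintype.card V : ℝ)) ^ (k - 1) ≤ P * (D.card : ℝ) ^ (k - 1) :=
    mul_le_mul_of_nonneg_left h5 hP.le
  calc (1 / 2) ^ (k - 1) * P * (Fintype.card V : ℝ) ^ (k - 1)
      = P * ((1 / 2) * (Fintype.card V : ℝ)) ^ (k - 1) := by rw [mul_pow]; ring
    _ ≤ _ := h6
    _ ≤ _ := key

end Pool.Agent.W174.LP.Tur
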